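import Mathlib
import Pool.Agent.H77.Z12.Sigma

/-!
Sign relations which survive the mutation of the simplicial cell `63` (MP_1e71f9_co).
-/

set_option autoImplicit false

namespace Pool.Agent.H64.Z12

open Pool.Agent.H77.Z12

/-- The masks of the six neighbours of the simplex and their complements. -/
def six (s : ℕ) : Bool :=
  (List.range 6).any fun i => Nat.beq s (2 ^ i) || Nat.beq s (4095 ^^^ 2 ^ i)

/-- All sign relations used after a mutation: the six neighbours of the simplex may be
complete. -/
structure RModel (χ T : ℕ → Bool) : Prop where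
  gp : ∀ A a b c d : ℕ, pc A = 4 → a < b → b < c → c < d → d < 12 →
    A.testBit a = false → A.testBit b = false → A.testBit c = false → A.testBit d = false →
    ¬ ((fsm χ A a b == fsm χ A c d) = !(fsm χ A a c == fsm χ A b d) ∧
      (fsm χ A a b == fsm χ A c d) = (fsm χ A a d == fsm χ A b c))
  cc : ∀ A, pc A = 5 → ∀ (ε : Bool) (s : ℕ),
    (∀ j < 12, A.testBit j = false → s.testBit j = xor (csm χ A j) ε) → T s = true
  kc : ∀ A, pc A = 7 → ∀ (ε : Bool) (s : ℕ),
    (∀ j < 12, A.testBit j = true → s.testBit j = xor (ksm χ A j) ε) → T s = false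
  anti : ∀ s, T (4095 ^^^ s) = T s
  bad : ∀ s < 4096, six s = false → T s = true → ∃ i < 12, T (s ^^^ 2 ^ i) = false

theorem rmodel_of_model {χ T : ℕ → Bool} (h : Model χ T) : RModel χ T where
  gp := h.gp
  cc := h.cc
  kc := h.kc
  anti := h.anti
  bad s _ _ hs := h.bad s hs

/-- A nogood is refuted without the six neighbours of the simplex. -/
def RRef36 (m w : ℕ) : Prop := ∀ χ T : ℕ → Bool, RModel χ T → χ 63 = true → Simp χ 63 4095 →
  (∀ k j : Fin 6, m.testBit (6 * k + j) = true → sigma χ k j = w.testBit (6 * k + j)) →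
  (m.testBit 36 = true → χ 4032 = w.testBit 36) → False

theorem RRef36.ref36 {m w : ℕ} (h : RRef36 m w) : Ref36 m w :=
  fun χ T hM => h χ T (rmodel_of_model hM)

end Pool.Agent.H64.Z12
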