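import Mathlib
import Pool.Agent.H64.Z12.RModel

/-!
Mutation of the simplicial cell `63`: the sign of the determinant need not be distinguished if the
six cells around the simplex may be complete (MP_1e71f9_co).
-/

set_option autoImplicit false

namespace Pool.Agent.H64.Z12

open Pool.Agent.H77.Z12

/-- Parity of the number of bits below six. -/
def pR (A : ℕ) : Bool := xorr 6 fun i => A.testBit i

/-- The sign change of a basis under the mutation. -/
def eF (A : ℕ) : Bool := if A = 63 then false else !(pR A)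

/-- The signs after the mutation, masks below 4096. -/
def flY (χ : ℕ → Bool) (A : ℕ) : Bool := xor (χ A) (eF A)

/-- The signs after the mutation. -/
def flX (χ : ℕ → Bool) (A : ℕ) : Bool := flY χ (A % 4096)

/-- The topes after the mutation. -/
def flT (T : ℕ → Bool) (s : ℕ) : Bool :=
  if s % 4096 = 0 ∨ s % 4096 = 4095 then true
  else if s % 4096 = 63 ∨ s % 4096 = 4032 then false else T (s % 4096 ^^^ 63)

/-! ### Masks -/

theorem tb_mod (s : ℕ) {j : ℕ} (hj : j < 12) : (s % 4096).testBit j = s.testBit j := by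
  have : (4096 : ℕ) = 2 ^ 12 := by norm_num
  rw [this, Nat.testBit_mod_two_pow, decide_eq_true hj, Bool.true_and]

theorem tb_63 (n : ℕ) : (63 : ℕ).testBit n = decide (n < 6) := by
  have : (63 : ℕ) = 2 ^ 6 - 1 := by norm_num
  rw [this, Nat.testBit_two_pow_sub_one]

theorem tb_4095 (n : ℕ) : (4095 : ℕ).testBit n = decide (n < 12) := by
  have : (4095 : ℕ) = 2 ^ 12 - 1 := by norm_num
  rw [this, Nat.testBit_two_pow_sub_one]

theorem tb_4032 {n : ℕ} (hn : n < 12) : (4032 : ℕ).testBit n = !decide (n < 6) := by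
  have : (4032 : ℕ) = 4095 ^^^ 63 := by decide
  rw [this, Nat.testBit_xor, tb_4095, tb_63, decide_eq_true hn, Bool.true_xor]

theorem eq_of_tb {s t : ℕ} (hs : s < 4096) (ht : t < 4096)
    (h : ∀ j < 12, s.testBit j = t.testBit j) : s = t := by
  apply Nat.eq_of_testBit_eq
  intro j
  by_cases hj : j < 12
  · exact h j hj
  · have h2 : (4096 : ℕ) ≤ 2 ^ j :=
      le_trans (by norm_num : (4096 : ℕ) ≤ 2 ^ 12) (Nat.pow_le_pow_right (by norm_num) (not_lt.1 hj))
    rw [Nat.testBit_lt_two_pow (lt_of_lt_of_le hs h2), Nat.testBit_lt_two_pow (lt_of_lt_of_le ht h2)]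

theorem xorr_or (f : ℕ → Bool) (x : ℕ) (h : f x = false) :
    xorr 6 (fun i => f i || decide (x = i)) = xor (xorr 6 f) (decide (x < 6)) := by
  by_cases hx : x < 6
  · interval_cases x <;> simp [xorr, h]
  · have e : ∀ i < 6, decide (x = i) = false := fun i hi => decide_eq_false (by omega)
    simp [xorr, e, hx]

theorem xorr_xor (f : ℕ → Bool) (x : ℕ) :
    xorr 6 (fun i => xor (f i) (decide (x = i))) = xor (xorr 6 f) (decide (x < 6)) := by
  by_cases hx : x < 6
  · interval_cases x <;> simp [xorr]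
  · have e : ∀ i < 6, decide (x = i) = false := fun i hi => decide_eq_false (by omega)
    simp [xorr, e, hx]

theorem pR_or {A x : ℕ} (h : A.testBit x = false) :
    pR (A ||| 2 ^ x) = xor (pR A) (decide (x < 6)) := by
  unfold pR
  rw [← xorr_or _ x h]
  congr 1
  funext i
  exact testBit_or_pow A x i

theorem pR_xor (A x : ℕ) : pR (A ^^^ 2 ^ x) = xor (pR A) (decide (x < 6)) := by
  unfold pR
  rw [← xorr_xor _ x]
  congr 1
  funext i
  exact testBit_xor_pow A x i

theorem pR_63 : pR 63 = false := by decide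

theorem eF_or {A x : ℕ} (h : A.testBit x = false) (h63 : A ||| 2 ^ x ≠ 63) :
    eF (A ||| 2 ^ x) = xor (!(pR A)) (decide (x < 6)) := by
  rw [eF, if_neg h63, pR_or h]
  cases pR A <;> cases decide (x < 6) <;> rfl

theorem eF_xor {A x : ℕ} (h63 : A ^^^ 2 ^ x ≠ 63) :
    eF (A ^^^ 2 ^ x) = xor (!(pR A)) (decide (x < 6)) := by
  rw [eF, if_neg h63, pR_xor]
  cases pR A <;> cases decide (x < 6) <;> rfl

theorem eF_or2 {A x y : ℕ} (hx : A.testBit x = false) (hy : A.testBit y = false) (hxy : x ≠ y)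
    (h63 : A ||| 2 ^ x ||| 2 ^ y ≠ 63) :
    eF (A ||| 2 ^ x ||| 2 ^ y) = xor (!(pR A)) (xor (decide (x < 6)) (decide (y < 6))) := by
  have h : (A ||| 2 ^ x).testBit y = false := by
    rw [testBit_or_pow, hy, decide_eq_false hxy]
    rfl
  rw [eF_or h h63, pR_or hx]
  cases pR A <;> cases decide (x < 6) <;> cases decide (y < 6) <;> rfl

/-! ### The signs around the simplex -/

/-- No bits above `x`. -/
theorem ipm_zero {A x : ℕ} (h : ∀ i < 12, x < i → A.testBit i = false) : ipm A x = false := by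
  have e : ∀ i < 12, (A.testBit i && decide (x < i)) = false := by
    intro i hi
    by_cases hx : x < i
    · rw [h i hi hx]
      rfl
    · rw [decide_eq_false hx, Bool.and_false]
  unfold ipm
  simp only [xorr]
  rw [e 0 (by norm_num), e 1 (by norm_num), e 2 (by norm_num), e 3 (by norm_num),
    e 4 (by norm_num), e 5 (by norm_num), e 6 (by norm_num), e 7 (by norm_num),
    e 8 (by norm_num), e 9 (by norm_num), e 10 (by norm_num), e 11 (by norm_num)]
  rfl

theorem ipm_sub {A : ℕ} (hA : ∀ i < 12, 6 ≤ i → A.testBit i = false) {k : ℕ} (hk : 6 ≤ k) :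
    ipm A k = false :=
  ipm_zero fun i hi hki => hA i hi (by omega)

variable {χ T : ℕ → Bool}

/-- All signs of the cocircuit at the vertex opposite to `b` agree. -/
theorem csm_vertex (hS : Simp χ 63 4095) {b k : ℕ} (hb : b < 6) (hk6 : 6 ≤ k) (hk : k < 12) :
    csm χ (63 ^^^ 2 ^ b) b = csm χ (63 ^^^ 2 ^ b) k := by
  have h := hS b (by omega) (by rw [tb_63, decide_eq_true hb]) k hk
    (by rw [tb_63, decide_eq_false (by omega)])
  rw [tb_4095, tb_4095, decide_eq_true (by omega), decide_eq_true hk] at h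
  revert h
  cases csm χ (63 ^^^ 2 ^ b) b <;> cases csm χ (63 ^^^ 2 ^ b) k <;> simp

theorem num_facts' : ∀ j e : Fin 6,
    ((63 ||| 2 ^ (6 + (e : ℕ))) ^^^ 2 ^ (j : ℕ) = (63 ^^^ 2 ^ (j : ℕ)) ||| 2 ^ (6 + (e : ℕ))) ∧
    ((63 ^^^ 2 ^ (j : ℕ)) ||| 2 ^ (j : ℕ) = 63) ∧
    (ipm (63 ||| 2 ^ (6 + (e : ℕ))) j = !(ipm (63 ^^^ 2 ^ (j : ℕ)) j)) ∧
    (ipm (63 ^^^ 2 ^ (j : ℕ)) (6 + (e : ℕ)) = false) ∧
    ((63 ||| 2 ^ (6 + (e : ℕ))) ^^^ 2 ^ (6 + (e : ℕ)) = 63) ∧
    (ipm (63 ||| 2 ^ (6 + (e : ℕ))) (6 + (e : ℕ)) = false) ∧ (pc (63 ||| 2 ^ (6 + (e : ℕ))) = 7) ∧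
    (pc (63 ^^^ 2 ^ (j : ℕ)) = 5) := by decide +kernel

theorem num_facts (j : ℕ) (hj : j < 6) (c : ℕ) (hc : c < 12) (hc6 : 6 ≤ c) :
    ((63 ||| 2 ^ c) ^^^ 2 ^ j = (63 ^^^ 2 ^ j) ||| 2 ^ c) ∧ ((63 ^^^ 2 ^ j) ||| 2 ^ j = 63) ∧
    (ipm (63 ||| 2 ^ c) j = !(ipm (63 ^^^ 2 ^ j) j)) ∧ (ipm (63 ^^^ 2 ^ j) c = false) ∧
    ((63 ||| 2 ^ c) ^^^ 2 ^ c = 63) ∧ (ipm (63 ||| 2 ^ c) c = false) ∧ (pc (63 ||| 2 ^ c) = 7) ∧
    (pc (63 ^^^ 2 ^ j) = 5) := by
  have h := num_facts' ⟨j, hj⟩ ⟨c - 6, by omega⟩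
  have e : 6 + (((⟨c - 6, by omega⟩ : Fin 6) : ℕ)) = c := by
    show 6 + (c - 6) = c
    omega
  rw [e] at h
  exact h

theorem ksm_hi {c : ℕ} (hc6 : 6 ≤ c) (hc : c < 12) : ksm χ (63 ||| 2 ^ c) c = χ 63 := by
  obtain ⟨-, -, -, -, h5, h6, -⟩ := num_facts 0 (by norm_num) c hc hc6
  rw [ksm, h5, h6, Bool.xor_false]

theorem ksm_lo (hS : Simp χ 63 4095) {j c : ℕ} (hj : j < 6) (hc6 : 6 ≤ c) (hc : c < 12) :
    ksm χ (63 ||| 2 ^ c) j = !(χ 63) := by
  obtain ⟨h1, h2, h3, h4, -⟩ := num_facts j hj c hc hc6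
  have h := csm_vertex hS hj hc6 hc
  rw [csm, csm, h2, h4, Bool.xor_false] at h
  rw [ksm, h1, ← h, h3]
  cases χ 63 <;> cases ipm (63 ^^^ 2 ^ j) j <;> rfl

/-- No tope in the cone over the simplex but the simplex. -/
theorem T_cone (hk : ∀ A, pc A = 7 → ∀ (ε : Bool) (s : ℕ),
    (∀ j < 12, A.testBit j = true → s.testBit j = xor (ksm χ A j) ε) → T s = false)
    (hS : Simp χ 63 4095) {s c : ℕ} {τ : Bool} (hc6 : 6 ≤ c) (hc : c < 12)
    (hR : ∀ j < 6, s.testBit j = τ) (hs : s.testBit c = !τ) : T s = false := by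
  obtain ⟨-, -, -, -, -, -, h7, -⟩ := num_facts 0 (by norm_num) c hc hc6
  refine hk _ h7 (xor τ (!(χ 63))) s fun j hj hA => ?_
  by_cases hj6 : j < 6
  · rw [ksm_lo hS hj6 hc6 hc, hR j hj6]
    cases χ 63 <;> cases τ <;> rfl
  · have hjc : c = j := by
      rw [testBit_or_pow, tb_63, decide_eq_false hj6, Bool.false_or, decide_eq_true_iff] at hA
      exact hA
    subst hjc
    rw [ksm_hi hc6 hc, hs]
    cases χ 63 <;> cases τ <;> rfl

/-- The cells around the simplex are topes. -/
theorem T_sub (hc : ∀ A, pc A = 5 → ∀ (ε : Bool) (s : ℕ),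
    (∀ j < 12, A.testBit j = false → s.testBit j = xor (csm χ A j) ε) → T s = true)
    (hS : Simp χ 63 4095) {F i : ℕ} (hF : ∀ j < 12, 6 ≤ j → F.testBit j = false) (hi : i < 6)
    (hFi : F.testBit i = false) : T F = true := by
  obtain ⟨-, -, -, -, -, -, -, h8⟩ := num_facts i hi 6 (by norm_num) le_rfl
  refine hc _ h8 (csm χ (63 ^^^ 2 ^ i) i) F fun j hj hA => ?_
  rw [testBit_xor_pow, tb_63] at hA
  by_cases hji : i = j
  · subst hji
    rw [hFi, Bool.xor_self]
  · rw [decide_eq_false hji, Bool.xor_false, decide_eq_false_iff_not] at hA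
    rw [hF j hj (by omega), csm_vertex hS hi (k := j) (by omega) hj, Bool.xor_self]

/-! ### The three term relations -/

theorem or_eq_xor {B x : ℕ} (h : B ||| 2 ^ x = 63) (hx : B.testBit x = false) :
    B = 63 ^^^ 2 ^ x := by
  apply Nat.eq_of_testBit_eq
  intro j
  rw [testBit_xor_pow, ← h, testBit_or_pow]
  by_cases hj : x = j
  · subst hj
    rw [hx, decide_eq_true rfl]
    rfl
  · rw [decide_eq_false hj, Bool.or_false, Bool.xor_false]

theorem lt_of_or {B x : ℕ} (h : B ||| 2 ^ x = 63) : x < 6 := by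
  have h1 := testBit_or_pow B x x
  rw [h, tb_63, decide_eq_true rfl, Bool.or_true, decide_eq_true_iff] at h1
  exact h1

theorem gpB : ∀ x y z q : Bool, ¬ (x = !y ∧ x = z) →
    ¬ (xor x q = !(xor y q) ∧ xor x q = xor z q) := by decide

theorem beq_xor : ∀ f g a b p s t u v : Bool, a = xor p (xor s t) → b = xor p (xor u v) →
    (xor f a == xor g b) = xor (f == g) (xor (xor s t) (xor u v)) := by decide

theorem fsm_flY (A x y : ℕ) :
    fsm (flY χ) A x y = xor (fsm χ A x y) (eF (A ||| 2 ^ x ||| 2 ^ y)) := by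
  rw [fsm, fsm, flY]
  cases χ (A ||| 2 ^ x ||| 2 ^ y) <;> cases eF (A ||| 2 ^ x ||| 2 ^ y) <;>
    cases ipm A x <;> cases ipm A y <;> rfl

/-- The pair of a basis equal to the simplex. -/
theorem pair63 {A x y z : ℕ} (h : A ||| 2 ^ x ||| 2 ^ y = 63) (hz : A.testBit z = false)
    (hzx : z ≠ x) (hzy : z ≠ y) : 6 ≤ z := by
  by_contra hcon
  have h1 := tb_63 z
  rw [← h, testBit_or_pow, testBit_or_pow, hz, decide_eq_false (Ne.symm hzx),
    decide_eq_false (Ne.symm hzy), decide_eq_true (by omega)] at h1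
  exact Bool.noConfusion h1

theorem pair63' {A x y : ℕ} (h : A ||| 2 ^ x ||| 2 ^ y = 63) : x < 6 ∧ y < 6 := by
  refine ⟨?_, lt_of_or h⟩
  have h1 := tb_63 x
  rw [← h, testBit_or_pow, testBit_or_pow, decide_eq_true (rfl : x = x), Bool.or_true,
    Bool.true_or] at h1
  exact decide_eq_true_iff.1 h1.symm

theorem fsm_const (hS : Simp χ 63 4095) {A a b c d : ℕ} (h : A ||| 2 ^ a ||| 2 ^ b = 63)
    (hab : a ≠ b) (ha : A.testBit a = false) (hb : A.testBit b = false)
    (hc : A.testBit c = false) (hd : A.testBit d = false)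
    (hc6 : 6 ≤ c) (hd6 : 6 ≤ d) (hc12 : c < 12) (hd12 : d < 12) :
    fsm (flY χ) A a c = fsm (flY χ) A a d := by
  have hA : ∀ i < 12, 6 ≤ i → A.testBit i = false := by
    intro i _ hi
    have h1 := tb_63 i
    rw [← h, testBit_or_pow, testBit_or_pow, decide_eq_false (by omega : ¬ i < 6),
      Bool.or_eq_false_iff, Bool.or_eq_false_iff] at h1
    exact h1.1.1
  have hB : A ||| 2 ^ a = 63 ^^^ 2 ^ b := by
    refine or_eq_xor h ?_
    rw [testBit_or_pow, hb, decide_eq_false hab]
    rfl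
  obtain ⟨ha6, hb6⟩ := pair63' h
  have hne : ∀ k, 6 ≤ k → A ||| 2 ^ a ||| 2 ^ k ≠ 63 := fun k hk h0 => by
    have := lt_of_or h0
    omega
  have e : ∀ k, 6 ≤ k → k < 12 → A.testBit k = false →
      fsm (flY χ) A a k = xor (xor (csm χ (63 ^^^ 2 ^ b) b) (ipm A a)) (pR A) := by
    intro k hk hk12 hAk
    obtain ⟨-, -, -, h4, -⟩ := num_facts b hb6 k hk12 hk
    rw [fsm_flY, fsm, eF_or2 ha hAk (by omega) (hne k hk), ipm_sub hA hk, hB,
      csm_vertex hS hb6 hk hk12, csm, h4, decide_eq_true ha6, decide_eq_false (by omega : ¬ k < 6)]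
    cases χ (63 ^^^ 2 ^ b ||| 2 ^ k) <;> cases ipm A a <;> cases pR A <;> rfl
  rw [e c hc6 hc12 hc, e d hd6 hd12 hd]

theorem gp_flY (hS : Simp χ 63 4095) {A a b c d : ℕ}
    (hgp : ¬ ((fsm χ A a b == fsm χ A c d) = !(fsm χ A a c == fsm χ A b d) ∧
      (fsm χ A a b == fsm χ A c d) = (fsm χ A a d == fsm χ A b c)))
    (hab : a < b) (hbc : b < c) (hcd : c < d) (hd12 : d < 12)
    (ha : A.testBit a = false) (hb : A.testBit b = false) (hc : A.testBit c = false)
    (hd : A.testBit d = false) :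
    ¬ ((fsm (flY χ) A a b == fsm (flY χ) A c d) = !(fsm (flY χ) A a c == fsm (flY χ) A b d) ∧
      (fsm (flY χ) A a b == fsm (flY χ) A c d) =
        (fsm (flY χ) A a d == fsm (flY χ) A b c)) := by
  by_cases h : A ||| 2 ^ a ||| 2 ^ b = 63
  · have hc6 := pair63 h hc (by omega) (by omega)
    have hd6 := pair63 h hd (by omega) (by omega)
    have h' : A ||| 2 ^ b ||| 2 ^ a = 63 := by rw [← h, Nat.or_assoc, Nat.or_comm (2 ^ b), ← Nat.or_assoc]
    have e1 := fsm_const hS h (by omega) ha hb hc hd hc6 hd6 (by omega) hd12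
    have e2 := fsm_const hS h' (by omega) hb ha hc hd hc6 hd6 (by omega) hd12
    rw [e1, e2]
    rintro ⟨h1, h2⟩
    rw [h2] at h1
    revert h1
    cases fsm (flY χ) A a d == fsm (flY χ) A b d <;> simp
  · have n1 : A ||| 2 ^ c ||| 2 ^ d ≠ 63 := fun h0 => by
      have := pair63 h0 ha (by omega) (by omega)
      have := pair63' h0
      omega
    have n2 : A ||| 2 ^ a ||| 2 ^ c ≠ 63 := fun h0 => by
      have := pair63 h0 hb (by omega) (by omega)
      have := pair63' h0
      omega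
    have n3 : A ||| 2 ^ b ||| 2 ^ d ≠ 63 := fun h0 => by
      have := pair63 h0 ha (by omega) (by omega)
      have := pair63' h0
      omega
    have n4 : A ||| 2 ^ a ||| 2 ^ d ≠ 63 := fun h0 => by
      have := pair63 h0 hb (by omega) (by omega)
      have := pair63' h0
      omega
    have n5 : A ||| 2 ^ b ||| 2 ^ c ≠ 63 := fun h0 => by
      have := pair63 h0 ha (by omega) (by omega)
      have := pair63' h0
      omega
    simp only [fsm_flY]
    rw [beq_xor _ _ _ _ _ _ _ _ _ (eF_or2 ha hb (by omega) h) (eF_or2 hc hd (by omega) n1),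
      beq_xor _ _ _ _ _ _ _ _ _ (eF_or2 ha hc (by omega) n2) (eF_or2 hb hd (by omega) n3),
      beq_xor _ _ _ _ _ _ _ _ _ (eF_or2 ha hd (by omega) n4) (eF_or2 hb hc (by omega) n5)]
    have q2 : xor (xor (decide (a < 6)) (decide (c < 6))) (xor (decide (b < 6)) (decide (d < 6))) =
        xor (xor (decide (a < 6)) (decide (b < 6))) (xor (decide (c < 6)) (decide (d < 6))) := by
      cases decide (a < 6) <;> cases decide (b < 6) <;> cases decide (c < 6) <;>
        cases decide (d < 6) <;> rfl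
    have q3 : xor (xor (decide (a < 6)) (decide (d < 6))) (xor (decide (b < 6)) (decide (c < 6))) =
        xor (xor (decide (a < 6)) (decide (b < 6))) (xor (decide (c < 6)) (decide (d < 6))) := by
      cases decide (a < 6) <;> cases decide (b < 6) <;> cases decide (c < 6) <;>
        cases decide (d < 6) <;> rfl
    rw [q2, q3]
    exact gpB _ _ _ _ hgp

/-! ### Cocircuits -/

variable {ε : Bool} {s A : ℕ}

theorem csm_flY (A j : ℕ) : csm (flY χ) A j = xor (csm χ A j) (eF (A ||| 2 ^ j)) := by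
  rw [csm, csm, flY]
  cases χ (A ||| 2 ^ j) <;> cases eF (A ||| 2 ^ j) <;> cases ipm A j <;> rfl

theorem ksm_flY (A j : ℕ) : ksm (flY χ) A j = xor (ksm χ A j) (eF (A ^^^ 2 ^ j)) := by
  rw [ksm, ksm, flY]
  cases χ (A ^^^ 2 ^ j) <;> cases eF (A ^^^ 2 ^ j) <;> cases ipm A j <;> rfl

theorem five_table : ((List.range 64).all fun A => !(Nat.beq (pc A) 5) ||
    (List.range 6).any fun i => Nat.beq A (63 ^^^ 2 ^ i)) = true := by decide +kernel

theorem five_cases (hA : pc A = 5) (h4 : A < 4096) (h : ∀ c < 12, 6 ≤ c → A.testBit c = false) :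
    ∃ i < 6, A = 63 ^^^ 2 ^ i := by
  have h64 : A < 64 := by
    have : A < 2 ^ 6 := by
      apply Nat.lt_pow_two_of_testBit
      intro i hi
      by_cases h12 : i < 12
      · exact h i h12 hi
      · exact Nat.testBit_lt_two_pow (lt_of_lt_of_le h4
          (le_trans (by norm_num : (4096 : ℕ) ≤ 2 ^ 12)
            (Nat.pow_le_pow_right (by norm_num) (not_lt.1 h12))))
    simpa using this
  have h1 := List.all_eq_true.1 five_table A (List.mem_range.2 h64)
  rw [hA] at h1
  simpa using h1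

theorem flT_small (hs : s < 4096) : flT T s = if s = 0 ∨ s = 4095 then true
    else if s = 63 ∨ s = 4032 then false else T (s ^^^ 63) := by
  rw [flT, Nat.mod_eq_of_lt hs]

theorem cc_flY (hM : Model χ T) (hS : Simp χ 63 4095) (hA : pc A = 5) (h4 : A < 4096)
    (hs4 : s < 4096)
    (h : ∀ j < 12, A.testBit j = false → s.testBit j = xor (csm (flY χ) A j) ε) :
    flT T s = true := by
  rw [flT_small hs4]
  by_cases h0 : s = 0 ∨ s = 4095
  · rw [if_pos h0]
  rw [if_neg h0]
  by_cases hsub : ∃ c, c < 12 ∧ 6 ≤ c ∧ A.testBit c = true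
  · obtain ⟨c, hc, hc6, hcA⟩ := hsub
    have hne : ∀ x, A ||| 2 ^ x ≠ 63 := fun x h0 => by
      have h1 := tb_63 c
      rw [← h0, testBit_or_pow, hcA, decide_eq_false (by omega : ¬ c < 6)] at h1
      exact Bool.noConfusion h1
    have key : ∀ j < 12, A.testBit j = false →
        (s ^^^ 63).testBit j = xor (csm χ A j) (xor (!(pR A)) ε) := by
      intro j hj hjA
      rw [Nat.testBit_xor, tb_63, h j hj hjA, csm_flY, eF_or hjA (hne j)]
      cases csm χ A j <;> cases pR A <;> cases decide (j < 6) <;> cases ε <;> rfl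
    have key' : ∀ j < 12, A.testBit j = false →
        ((s ^^^ 63) ^^^ 2 ^ c).testBit j = xor (csm χ A j) (xor (!(pR A)) ε) := by
      intro j hj hjA
      have hcj : c ≠ j := by rintro rfl; rw [hcA] at hjA; exact Bool.noConfusion hjA
      rw [testBit_xor_pow, decide_eq_false hcj, Bool.xor_false, key j hj hjA]
    have hT := hM.cc A hA _ _ key
    have hT' := hM.cc A hA _ _ key'
    by_cases h1 : s = 63 ∨ s = 4032
    · exfalso
      have hf : ∀ τ : Bool, (∀ j < 12, (s ^^^ 63).testBit j = τ) → False := by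
        intro τ hτ
        have := T_cone (τ := τ) (s := (s ^^^ 63) ^^^ 2 ^ c) hM.kc hS hc6 hc
          (fun j hj => by
            rw [testBit_xor_pow, hτ j (by omega), decide_eq_false (by omega : ¬ c = j),
              Bool.xor_false])
          (by rw [testBit_xor_pow, hτ c hc, decide_eq_true rfl, Bool.xor_true])
        rw [this] at hT'
        exact Bool.noConfusion hT'
      rcases h1 with rfl | rfl
      · exact hf false fun j hj => by rw [Nat.xor_self, Nat.zero_testBit]
      · refine hf true fun j hj => ?_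
        rw [Nat.testBit_xor, tb_63, tb_4032 hj]
        cases decide (j < 6) <;> rfl
    · rw [if_neg h1]
      exact hT
  · have hsub' : ∀ c < 12, 6 ≤ c → A.testBit c = false := by
      intro c hc hc6
      by_contra hcon
      exact hsub ⟨c, hc, hc6, by simpa using hcon⟩
    obtain ⟨i, hi, rfl⟩ := five_cases hA h4 hsub'
    obtain ⟨-, h2, -, -, -, -, -, -⟩ := num_facts i hi 6 (by norm_num) le_rfl
    have hbit : ∀ j, (63 ^^^ 2 ^ i).testBit j = (xor (decide (j < 6)) (decide (i = j))) :=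
      fun j => by rw [testBit_xor_pow, tb_63]
    have e1 : csm (flY χ) (63 ^^^ 2 ^ i) i = csm χ (63 ^^^ 2 ^ i) i := by
      rw [csm_flY, h2, eF, if_pos rfl, Bool.xor_false]
    have e2 : ∀ k < 12, 6 ≤ k → csm (flY χ) (63 ^^^ 2 ^ i) k = csm χ (63 ^^^ 2 ^ i) i := by
      intro k hk hk6
      have hne : 63 ^^^ 2 ^ i ||| 2 ^ k ≠ 63 := fun h0 => by
        have := lt_of_or h0
        omega
      rw [csm_flY, eF_or (hsub' k hk hk6) hne, pR_xor, pR_63, decide_eq_true hi,
        decide_eq_false (by omega : ¬ k < 6), csm_vertex hS hi hk6 hk]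
      cases csm χ (63 ^^^ 2 ^ i) k <;> rfl
    set τ := xor (csm χ (63 ^^^ 2 ^ i) i) ε with hτ
    have hsi : s.testBit i = τ := by
      rw [h i (by omega) (by rw [hbit, decide_eq_true hi, decide_eq_true rfl]; rfl), e1]
    have hsk : ∀ k < 12, 6 ≤ k → s.testBit k = τ := by
      intro k hk hk6
      rw [h k hk (hsub' k hk hk6), e2 k hk hk6]
    have h1 : ¬ (s = 63 ∨ s = 4032) := by
      rintro (rfl | rfl)
      · have a1 := hsk 6 (by norm_num) le_rfl
        rw [tb_63, decide_eq_true hi] at hsi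
        rw [tb_63] at a1
        rw [← hsi] at a1
        exact absurd a1 (by decide)
      · have a1 := hsk 6 (by norm_num) le_rfl
        rw [tb_4032 (by omega), decide_eq_true hi] at hsi
        rw [tb_4032 (by norm_num)] at a1
        rw [← hsi] at a1
        exact absurd a1 (by decide)
    rw [if_neg h1]
    -- another index inside
    have hex : ∃ k < 6, s.testBit k = !τ := by
      by_contra hcon
      push Not at hcon
      have hall : ∀ j < 12, s.testBit j = τ := by
        intro j hj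
        by_cases hj6 : j < 6
        · have := hcon j hj6
          revert this
          cases s.testBit j <;> cases τ <;> simp
        · exact hsk j hj (by omega)
      apply h0
      rcases Bool.eq_false_or_eq_true τ with ht | ht
      · right
        exact eq_of_tb hs4 (by norm_num) fun j hj => by
          rw [hall j hj, tb_4095, ht, decide_eq_true hj]
      · left
        exact eq_of_tb hs4 (by norm_num) fun j hj => by
          rw [hall j hj, Nat.zero_testBit, ht]
    obtain ⟨k, hk, hsk'⟩ := hex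
    rcases Bool.eq_false_or_eq_true τ with ht | ht
    · -- τ = true
      rw [← hM.anti]
      refine T_sub (i := k) hM.cc hS (fun j hj hj6 => ?_) hk ?_
      · rw [Nat.testBit_xor, Nat.testBit_xor, tb_4095, tb_63, decide_eq_true hj,
          hsk j hj hj6, ht, decide_eq_false (by omega : ¬ j < 6)]
        rfl
      · rw [Nat.testBit_xor, Nat.testBit_xor, tb_4095, tb_63, decide_eq_true (by omega), hsk',
          ht, decide_eq_true hk]
        rfl
    · refine T_sub (i := k) hM.cc hS (fun j hj hj6 => ?_) hk ?_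
      · rw [Nat.testBit_xor, tb_63, hsk j hj hj6, ht, decide_eq_false (by omega : ¬ j < 6)]
        rfl
      · rw [Nat.testBit_xor, tb_63, hsk', ht, decide_eq_true hk]
        rfl

/-! ### Circuits -/

theorem seven_table : ((List.range 4096).all fun A => !(Nat.beq (pc A) 7) ||
    !(Nat.beq (A &&& 63) 63) || (List.range 6).any fun i => Nat.beq A (63 ||| 2 ^ (6 + i))) =
    true := by decide +kernel

theorem seven_cases (hA : pc A = 7) (h4 : A < 4096) (h : ∀ j < 6, A.testBit j = true) :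
    ∃ i < 6, A = 63 ||| 2 ^ (6 + i) := by
  have h63 : A &&& 63 = 63 := by
    apply Nat.eq_of_testBit_eq
    intro j
    rw [Nat.testBit_and, tb_63]
    by_cases hj : j < 6
    · rw [h j hj, Bool.true_and]
    · rw [decide_eq_false hj, Bool.and_false]
  have h1 := List.all_eq_true.1 seven_table A (List.mem_range.2 h4)
  rw [hA, h63] at h1
  simpa using h1

theorem kc_flY (hM : Model χ T) (hS : Simp χ 63 4095) (hA : pc A = 7) (h4 : A < 4096)
    (hs4 : s < 4096)
    (h : ∀ j < 12, A.testBit j = true → s.testBit j = xor (ksm (flY χ) A j) ε) :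
    flT T s = false := by
  rw [flT_small hs4]
  by_cases hsub : ∀ j < 6, A.testBit j = true
  · obtain ⟨i, hi, rfl⟩ := seven_cases hA h4 hsub
    set c := 6 + i with hc
    have hc6 : 6 ≤ c := by omega
    have hc12 : c < 12 := by omega
    have hp : pR (63 ||| 2 ^ c) = false := by
      rw [pR_or (by rw [tb_63, decide_eq_false (by omega)]), pR_63, decide_eq_false (by omega)]
      rfl
    have e1 : ∀ j < 6, ksm (flY χ) (63 ||| 2 ^ c) j = !(χ 63) := by
      intro j hj
      have hne : (63 ||| 2 ^ c) ^^^ 2 ^ j ≠ 63 := fun h0 => by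
        have h1 := tb_63 j
        rw [← h0, testBit_xor_pow, hsub j hj, decide_eq_true rfl, decide_eq_true hj] at h1
        exact Bool.noConfusion h1
      rw [ksm_flY, eF_xor hne, ksm_lo hS hj hc6 hc12, hp, decide_eq_true hj]
      cases χ 63 <;> rfl
    have e2 : ksm (flY χ) (63 ||| 2 ^ c) c = χ 63 := by
      obtain ⟨-, -, -, -, h5, -⟩ := num_facts 0 (by norm_num) c hc12 hc6
      rw [ksm_flY, h5, eF, if_pos rfl, Bool.xor_false, ksm_hi hc6 hc12]
    set τ := xor (!(χ 63)) ε with hτ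
    have hsj : ∀ j < 6, s.testBit j = τ := by
      intro j hj
      rw [h j (by omega) (hsub j hj), e1 j hj]
    have hsc : s.testBit c = !τ := by
      rw [h c hc12 (by rw [testBit_or_pow, decide_eq_true rfl, Bool.or_true]), e2, hτ]
      cases χ 63 <;> cases ε <;> rfl
    have hs0 := hsj 0 (by norm_num)
    have h0 : ¬ (s = 0 ∨ s = 4095) := by
      rintro (rfl | rfl)
      · rw [Nat.zero_testBit] at hs0 hsc
        rw [← hs0] at hsc
        exact absurd hsc (by decide)
      · rw [tb_4095] at hs0 hsc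
        rw [← hs0, decide_eq_true hc12] at hsc
        exact absurd hsc (by decide)
    rw [if_neg h0]
    by_cases h1 : s = 63 ∨ s = 4032
    · rw [if_pos h1]
    rw [if_neg h1]
    have hex : ∃ c', c' < 12 ∧ 6 ≤ c' ∧ s.testBit c' = τ := by
      by_contra hcon
      have hall : ∀ j < 12, 6 ≤ j → s.testBit j = !τ := by
        intro j hj hj6
        have : ¬ s.testBit j = τ := fun h2 => hcon ⟨j, hj, hj6, h2⟩
        revert this
        cases s.testBit j <;> cases τ <;> simp
      apply h1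
      rcases Bool.eq_false_or_eq_true τ with ht | ht
      · left
        exact eq_of_tb hs4 (by norm_num) fun j hj => by
          by_cases hj6 : j < 6
          · rw [hsj j hj6, tb_63, ht, decide_eq_true hj6]
          · rw [hall j hj (by omega), tb_63, ht, decide_eq_false hj6]
            rfl
      · right
        exact eq_of_tb hs4 (by norm_num) fun j hj => by
          by_cases hj6 : j < 6
          · rw [hsj j hj6, tb_4032 hj, ht, decide_eq_true hj6]
            rfl
          · rw [hall j hj (by omega), tb_4032 hj, ht, decide_eq_false hj6]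
    obtain ⟨c', hc'12, hc'6, hc's⟩ := hex
    refine T_cone (τ := !τ) (c := c') hM.kc hS hc'6 hc'12 (fun j hj => ?_) ?_
    · rw [Nat.testBit_xor, tb_63, hsj j hj, decide_eq_true hj, Bool.xor_true]
    · rw [Nat.testBit_xor, tb_63, hc's, decide_eq_false (by omega), Bool.xor_false, Bool.not_not]
  · push Not at hsub
    obtain ⟨r, hr, hrA⟩ := hsub
    have hrA' : A.testBit r = false := by simpa using hrA
    have hne : ∀ j, A.testBit j = true → A ^^^ 2 ^ j ≠ 63 := fun j hj h0 => by
      have h1 := tb_63 r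
      have hjr : j ≠ r := by rintro rfl; rw [hj] at hrA'; exact Bool.noConfusion hrA'
      rw [← h0, testBit_xor_pow, hrA', decide_eq_false hjr, decide_eq_true hr] at h1
      exact Bool.noConfusion h1
    have key : ∀ j < 12, A.testBit j = true →
        (s ^^^ 63).testBit j = xor (ksm χ A j) (xor (!(pR A)) ε) := by
      intro j hj hjA
      rw [Nat.testBit_xor, tb_63, h j hj hjA, ksm_flY, eF_xor (hne j hjA)]
      cases ksm χ A j <;> cases pR A <;> cases decide (j < 6) <;> cases ε <;> rfl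
    have key' : ∀ j < 12, A.testBit j = true →
        ((s ^^^ 63) ^^^ 2 ^ r).testBit j = xor (ksm χ A j) (xor (!(pR A)) ε) := by
      intro j hj hjA
      have hrj : r ≠ j := by rintro rfl; rw [hrA'] at hjA; exact Bool.noConfusion hjA
      rw [testBit_xor_pow, decide_eq_false hrj, Bool.xor_false, key j hj hjA]
    have hT := hM.kc A hA _ _ key
    have hT' := hM.kc A hA _ _ key'
    have ht : T (63 ^^^ 2 ^ r) = true := by
      refine T_sub (i := r) hM.cc hS (fun j _ hj6 => ?_) hr ?_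
      · rw [testBit_xor_pow, tb_63, decide_eq_false (by omega : ¬ j < 6),
          decide_eq_false (by omega : ¬ r = j)]
        rfl
      · rw [testBit_xor_pow, tb_63, decide_eq_true hr, decide_eq_true rfl]
        rfl
    have h0 : ¬ (s = 0 ∨ s = 4095) := by
      rintro (rfl | rfl)
      · rw [Nat.zero_xor, ht] at hT'
        exact Bool.noConfusion hT'
      · rw [Nat.xor_assoc, hM.anti, ht] at hT'
        exact Bool.noConfusion hT'
    rw [if_neg h0]
    by_cases h1 : s = 63 ∨ s = 4032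
    · rw [if_pos h1]
    · rw [if_neg h1]
      exact hT

/-! ### Antipodes and complete cells -/

theorem compl_table : ((List.range 4096).all fun t => Nat.beq (4095 ^^^ t) (4095 - t)) = true := by
  decide +kernel

theorem compl_eq {t : ℕ} (ht : t < 4096) : 4095 ^^^ t = 4095 - t :=
  Nat.eq_of_beq_eq_true (List.all_eq_true.1 compl_table t (List.mem_range.2 ht))

theorem mod_compl (s : ℕ) : (4095 ^^^ s) % 4096 = 4095 ^^^ (s % 4096) := by
  have h1 : 4095 ^^^ (s % 4096) < 4096 := by
    rw [compl_eq (Nat.mod_lt _ (by norm_num))]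
    omega
  refine eq_of_tb (Nat.mod_lt _ (by norm_num)) h1 fun j hj => ?_
  rw [tb_mod _ hj, Nat.testBit_xor, Nat.testBit_xor, tb_mod _ hj]

theorem anti_flT (ha : ∀ s, T (4095 ^^^ s) = T s) (s : ℕ) : flT T (4095 ^^^ s) = flT T s := by
  have ht : s % 4096 < 4096 := Nat.mod_lt _ (by norm_num)
  rw [flT, flT, mod_compl]
  set t := s % 4096 with hts
  have e := compl_eq ht
  have h1 : (4095 ^^^ t = 0 ∨ 4095 ^^^ t = 4095) ↔ (t = 0 ∨ t = 4095) := by
    rw [e]; omega
  have h2 : (4095 ^^^ t = 63 ∨ 4095 ^^^ t = 4032) ↔ (t = 63 ∨ t = 4032) := by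
    rw [e]; omega
  simp only [h1, h2]
  rw [Nat.xor_assoc, ha]

theorem six_of {s i : ℕ} (hi : i < 6) (h : s = 2 ^ i ∨ s = 4095 ^^^ 2 ^ i) : six s = true := by
  rw [six, List.any_eq_true]
  refine ⟨i, List.mem_range.2 hi, ?_⟩
  rcases h with rfl | rfl
  · rw [Nat.beq_refl]
    rfl
  · rw [Nat.beq_refl, Bool.or_true]

theorem bad_flT (hM : Model χ T) (hS : Simp χ 63 4095) (hs4 : s < 4096) (h6 : six s = false)
    (hs : flT T s = true) : ∃ i < 12, flT T (s ^^^ 2 ^ i) = false := by
  by_cases h0 : s = 0 ∨ s = 4095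
  · refine ⟨6, by norm_num, ?_⟩
    rcases h0 with rfl | rfl
    · have e : flT T (0 ^^^ 2 ^ 6) = T (64 ^^^ 63) := by
        rw [Nat.zero_xor, show (2 : ℕ) ^ 6 = 64 by norm_num, flT_small (by norm_num)]
        rfl
      rw [e]
      exact T_cone (τ := true) (c := 7) hM.kc hS (by norm_num) (by norm_num) (by decide)
        (by decide)
    · have e : flT T (4095 ^^^ 2 ^ 6) = T (4031 ^^^ 63) := by
        rw [show (4095 : ℕ) ^^^ 2 ^ 6 = 4031 by decide, flT_small (by norm_num)]
        rfl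
      rw [e]
      exact T_cone (τ := false) (c := 7) hM.kc hS (by norm_num) (by norm_num) (by decide)
        (by decide)
  have hs' := hs
  rw [flT_small hs4, if_neg h0] at hs
  by_cases h1 : s = 63 ∨ s = 4032
  · rw [if_pos h1] at hs
    exact Bool.noConfusion hs
  rw [if_neg h1] at hs
  obtain ⟨i, hi, hT⟩ := hM.bad _ hs
  have hlt : s ^^^ 2 ^ i < 4096 := by
    have h2 : (2 : ℕ) ^ i < 2 ^ 12 := Nat.pow_lt_pow_right (by norm_num) hi
    have h3 := Nat.xor_lt_two_pow (n := 12) (by simpa using hs4) h2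
    simpa using h3
  refine ⟨i, hi, ?_⟩
  rw [flT_small hlt]
  have hback : s = (s ^^^ 2 ^ i) ^^^ 2 ^ i := by
    rw [Nat.xor_assoc, Nat.xor_self, Nat.xor_zero]
  have hother : ∃ c, c < 12 ∧ 6 ≤ c ∧ c ≠ i := by
    by_cases h7 : i = 6
    · exact ⟨7, by norm_num, by norm_num, by omega⟩
    · exact ⟨6, by norm_num, le_rfl, fun h => h7 h.symm⟩
  obtain ⟨c, hc, hc6, hci⟩ := hother
  have hn : ¬ (s ^^^ 2 ^ i = 0 ∨ s ^^^ 2 ^ i = 4095) := by
    rintro (h2 | h2)
    · rw [h2, Nat.zero_xor] at hback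
      by_cases hi6 : i < 6
      · rw [six_of hi6 (Or.inl hback)] at h6
        exact Bool.noConfusion h6
      · rw [T_cone (τ := true) (c := c) hM.kc hS hc6 hc (fun j hj => by
          rw [hback, Nat.testBit_xor, Nat.testBit_two_pow, tb_63,
            decide_eq_false (by omega : ¬ i = j), decide_eq_true hj]
          rfl) (by
          rw [hback, Nat.testBit_xor, Nat.testBit_two_pow, tb_63,
            decide_eq_false (fun h : i = c => hci h.symm), decide_eq_false (by omega : ¬ c < 6)]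
          rfl)] at hs
        exact Bool.noConfusion hs
    · rw [h2] at hback
      by_cases hi6 : i < 6
      · rw [six_of hi6 (Or.inr hback)] at h6
        exact Bool.noConfusion h6
      · rw [T_cone (τ := false) (c := c) hM.kc hS hc6 hc (fun j hj => by
          rw [hback, Nat.testBit_xor, testBit_xor_pow, tb_63, tb_4095,
            decide_eq_false (by omega : ¬ i = j), decide_eq_true hj, decide_eq_true (by omega)]
          rfl) (by
          rw [hback, Nat.testBit_xor, testBit_xor_pow, tb_63, tb_4095,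
            decide_eq_false (fun h : i = c => hci h.symm), decide_eq_false (by omega : ¬ c < 6),
            decide_eq_true hc]
          rfl)] at hs
        exact Bool.noConfusion hs
  rw [if_neg hn]
  by_cases h3 : s ^^^ 2 ^ i = 63 ∨ s ^^^ 2 ^ i = 4032
  · rw [if_pos h3]
  · rw [if_neg h3, Nat.xor_assoc, Nat.xor_comm (2 ^ i) 63, ← Nat.xor_assoc]
    exact hT

/-! ### High bits -/

theorem pc_mod (A : ℕ) : pc (A % 4096) = pc A := by
  unfold pc
  rw [tb_mod A (by norm_num : 0 < 12), tb_mod A (by norm_num : 1 < 12),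
    tb_mod A (by norm_num : 2 < 12), tb_mod A (by norm_num : 3 < 12),
    tb_mod A (by norm_num : 4 < 12), tb_mod A (by norm_num : 5 < 12),
    tb_mod A (by norm_num : 6 < 12), tb_mod A (by norm_num : 7 < 12),
    tb_mod A (by norm_num : 8 < 12), tb_mod A (by norm_num : 9 < 12),
    tb_mod A (by norm_num : 10 < 12), tb_mod A (by norm_num : 11 < 12)]

theorem ipm_mod (A x : ℕ) : ipm (A % 4096) x = ipm A x := by
  unfold ipm
  simp only [xorr]
  rw [tb_mod A (by norm_num : 0 < 12), tb_mod A (by norm_num : 1 < 12),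
    tb_mod A (by norm_num : 2 < 12), tb_mod A (by norm_num : 3 < 12),
    tb_mod A (by norm_num : 4 < 12), tb_mod A (by norm_num : 5 < 12),
    tb_mod A (by norm_num : 6 < 12), tb_mod A (by norm_num : 7 < 12),
    tb_mod A (by norm_num : 8 < 12), tb_mod A (by norm_num : 9 < 12),
    tb_mod A (by norm_num : 10 < 12), tb_mod A (by norm_num : 11 < 12)]

theorem or_mod {A x : ℕ} (hx : x < 12) : (A ||| 2 ^ x) % 4096 = (A % 4096) ||| 2 ^ x := by
  have h2 : (2 : ℕ) ^ x < 2 ^ 12 := Nat.pow_lt_pow_right (by norm_num) hx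
  have h3 : A % 4096 ||| 2 ^ x < 4096 :=
    by simpa using Nat.or_lt_two_pow (n := 12) (by simpa using Nat.mod_lt A (by norm_num)) h2
  refine eq_of_tb (Nat.mod_lt _ (by norm_num)) h3 fun j hj => ?_
  rw [tb_mod _ hj, testBit_or_pow, testBit_or_pow, tb_mod _ hj]

theorem xor_mod {A x : ℕ} (hx : x < 12) : (A ^^^ 2 ^ x) % 4096 = (A % 4096) ^^^ 2 ^ x := by
  have h2 : (2 : ℕ) ^ x < 2 ^ 12 := Nat.pow_lt_pow_right (by norm_num) hx
  have h3 : A % 4096 ^^^ 2 ^ x < 4096 :=
    by simpa using Nat.xor_lt_two_pow (n := 12) (by simpa using Nat.mod_lt A (by norm_num)) h2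
  refine eq_of_tb (Nat.mod_lt _ (by norm_num)) h3 fun j hj => ?_
  rw [tb_mod _ hj, testBit_xor_pow, testBit_xor_pow, tb_mod _ hj]

theorem csm_flX (A : ℕ) {j : ℕ} (hj : j < 12) :
    csm (flX χ) A j = csm (flY χ) (A % 4096) j := by
  rw [csm, csm, flX, or_mod hj, ipm_mod]

theorem ksm_flX (A : ℕ) {j : ℕ} (hj : j < 12) :
    ksm (flX χ) A j = ksm (flY χ) (A % 4096) j := by
  rw [ksm, ksm, flX, xor_mod hj, ipm_mod]

theorem fsm_flX (A : ℕ) {x y : ℕ} (hx : x < 12) (hy : y < 12) :
    fsm (flX χ) A x y = fsm (flY χ) (A % 4096) x y := by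
  rw [fsm, fsm, flX, or_mod hy, or_mod hx, ipm_mod, ipm_mod]

theorem flT_mod (s : ℕ) : flT T (s % 4096) = flT T s := by
  rw [flT, flT, Nat.mod_mod]

/-- **The mutated signs are a relaxed model.** -/
theorem rmodel_flX (hM : Model χ T) (hS : Simp χ 63 4095) : RModel (flX χ) (flT T) where
  gp A a b c d hA hab hbc hcd hd ha hb hc hd' := by
    have h4 : pc (A % 4096) = 4 := by rw [pc_mod, hA]
    rw [← tb_mod A (by omega)] at ha hb hc hd'
    rw [fsm_flX A (by omega) (by omega), fsm_flX A (by omega) (by omega),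
      fsm_flX A (by omega) (by omega), fsm_flX A (by omega) (by omega),
      fsm_flX A (by omega) (by omega), fsm_flX A (by omega) (by omega)]
    exact gp_flY hS (hM.gp _ _ _ _ _ h4 hab hbc hcd hd ha hb hc hd') hab hbc hcd hd ha hb hc hd'
  cc A hA ε s h := by
    rw [← flT_mod]
    refine cc_flY (ε := ε) (A := A % 4096) hM hS (by rw [pc_mod, hA])
      (Nat.mod_lt _ (by norm_num)) (Nat.mod_lt _ (by norm_num)) fun j hj hjA => ?_
    rw [tb_mod _ hj] at hjA ⊢
    rw [h j hj hjA, csm_flX A hj]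
  kc A hA ε s h := by
    rw [← flT_mod]
    refine kc_flY (ε := ε) (A := A % 4096) hM hS (by rw [pc_mod, hA])
      (Nat.mod_lt _ (by norm_num)) (Nat.mod_lt _ (by norm_num)) fun j hj hjA => ?_
    rw [tb_mod _ hj] at hjA ⊢
    rw [h j hj hjA, ksm_flX A hj]
  anti s := anti_flT hM.anti s
  bad s hs4 h6 hs := bad_flT hM hS hs4 h6 hs

/-! ### The flip -/

theorem flX_63 : flX χ 63 = χ 63 := by
  rw [flX, flY, eF, if_pos rfl]
  exact Bool.xor_false _

theorem flX_4032 : flX χ 4032 = !(χ 4032) := by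
  have h : eF 4032 = true := by decide
  rw [flX, flY, Nat.mod_eq_of_lt (by norm_num), h, Bool.xor_true]

theorem simp_flX (hS : Simp χ 63 4095) : Simp (flX χ) 63 4095 := by
  intro b hb hbB k hk hkB
  have hb6 : b < 6 := by rw [tb_63, decide_eq_true_iff] at hbB; exact hbB
  have hk6 : 6 ≤ k := by
    rw [tb_63, decide_eq_false_iff_not] at hkB
    omega
  obtain ⟨-, h2, -, -, -, -, -, -⟩ := num_facts b hb6 6 (by norm_num) le_rfl
  have hbit : ∀ j, (63 ^^^ 2 ^ b).testBit j = (xor (decide (j < 6)) (decide (b = j))) :=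
    fun j => by rw [testBit_xor_pow, tb_63]
  have hlt : (63 ^^^ 2 ^ b) < 4096 := by
    have : ∀ b : Fin 6, 63 ^^^ 2 ^ (b : ℕ) < 4096 := by decide
    exact this ⟨b, hb6⟩
  have e1 : csm (flX χ) (63 ^^^ 2 ^ b) b = csm χ (63 ^^^ 2 ^ b) b := by
    rw [csm_flX _ hb, Nat.mod_eq_of_lt hlt, csm_flY, h2, eF, if_pos rfl, Bool.xor_false]
  have e2 : csm (flX χ) (63 ^^^ 2 ^ b) k = csm χ (63 ^^^ 2 ^ b) k := by
    have hne : 63 ^^^ 2 ^ b ||| 2 ^ k ≠ 63 := fun h0 => by
      have := lt_of_or h0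
      omega
    have hkb : (63 ^^^ 2 ^ b).testBit k = false := by
      rw [hbit, decide_eq_false (by omega : ¬ k < 6), decide_eq_false (by omega : ¬ b = k)]
      rfl
    rw [csm_flX _ hk, Nat.mod_eq_of_lt hlt, csm_flY, eF_or hkb hne, pR_xor, pR_63,
      decide_eq_true hb6, decide_eq_false (by omega : ¬ k < 6)]
    cases csm χ (63 ^^^ 2 ^ b) k <;> rfl
  rw [e1, e2]
  exact hS b hb hbB k hk hkB

theorem eF_mS : ∀ k j : Fin 6, eF (mS k ||| 2 ^ (j : ℕ)) = false ∧
    mS k ||| 2 ^ (6 + (k : ℕ)) = 4032 ∧ mS k % 4096 = mS k := by decide +kernel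

theorem sigma_flX (k j : Fin 6) : sigma (flX χ) k j = !(sigma χ k j) := by
  obtain ⟨h1, h2, h3⟩ := eF_mS k j
  have e1 : csm (flX χ) (mS k) j = csm χ (mS k) j := by
    rw [csm_flX _ (by omega), h3, csm_flY, h1, Bool.xor_false]
  have e2 : csm (flX χ) (mS k) (6 + k) = !(csm χ (mS k) (6 + k)) := by
    have h : eF 4032 = true := by decide
    rw [csm_flX _ (by omega), h3, csm_flY, h2, h, Bool.xor_true]
  rw [sigma, sigma, e1, e2]
  cases csm χ (mS ↑k) ↑j <;> cases csm χ (mS ↑k) (6 + ↑k) <;> rfl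

/-- **A nogood refuted without the six neighbours is refuted in both signs.** -/
theorem RRef36.flip {m w : ℕ} (h : RRef36 m w) : Ref36 m (w ^^^ m) := by
  intro χ T hM h63 hS hs hd
  refine h (flX χ) (flT T) (rmodel_flX hM hS) (by rw [flX_63, h63]) (simp_flX hS) ?_ ?_
  · intro k j hkj
    rw [sigma_flX, hs k j hkj, Nat.testBit_xor, hkj]
    cases w.testBit (6 * k + j) <;> rfl
  · intro h36
    rw [flX_4032, hd h36, Nat.testBit_xor, h36]
    cases w.testBit 36 <;> rfl

end Pool.Agent.H64.Z12
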